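import Pool.Agent.H15.HLU.Targets

/-! The square of the last step is homogeneous (row WCN of hlu). -/

set_option autoImplicit false

namespace Pool.Agent.H95.HLU

open Pool.Agent.H51.Homog Pool.Agent.H22.HSQ Pool.Agent.H15.HLS Pool.Agent.H15.HLU

open Classical in
theorem sum_w01 {m : ℕ} (S₀ S₁ : Fin m → Fin m → Fin m → Fin m → Prop) (y : ℕ)
    (hd : ∀ r k r' k', ¬ (S₀ r k r' k' ∧ S₁ r k r' k')) (r k : Fin m) :
    ∑ p : Fin m × Fin m, w01 S₀ S₁ y r k p.1 p.2 = cov S₀ r k + cov S₁ r k * y := by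
  have h1 : ∀ p : Fin m × Fin m, w01 S₀ S₁ y r k p.1 p.2 =
      (if S₀ r k p.1 p.2 then 1 else 0) + (if S₁ r k p.1 p.2 then y else 0) := by
    intro p
    unfold w01
    by_cases a : S₁ r k p.1 p.2
    · have b : ¬ S₀ r k p.1 p.2 := fun b => hd _ _ _ _ ⟨b, a⟩
      simp [a, b]
    · by_cases b : S₀ r k p.1 p.2
      · simp [a, b]
      · simp [a, b]
  have h2 : ∀ S : Fin m → Fin m → Fin m → Fin m → Prop,
      cov S r k = (Finset.univ.filter fun p : Fin m × Fin m => S r k p.1 p.2).card := by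
    intro S
    unfold cov
    rw [← Set.ncard_coe_finset]
    congr 1
    ext p
    simp
  rw [Finset.sum_congr rfl fun p _ => h1 p, Finset.sum_add_distrib, h2, h2,
    ← Finset.sum_filter, ← Finset.sum_filter, Finset.sum_const, Finset.sum_const, smul_eq_mul,
    smul_eq_mul, mul_one]

open Classical in
theorem pf_WCN : T_WCN := by
  intro m u c y L S₀ S₁ hL hS₀ hS₁ h₀ h₁ hd β _ π L' h x z
  have hA : intercalatesAt L' x z = (Finset.univ.filter fun q : β × β =>
      q.1 ≠ x ∧ q.2 ≠ z ∧ L' q.1 q.2 = L' x z ∧ L' q.1 z = L' x q.2).card := by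
    unfold intercalatesAt
    rw [← Set.ncard_coe_finset]
    congr 1
    ext q
    simp
  rw [hA, Finset.card_eq_sum_card_fiberwise (f := fun q : β × β => (π q.1, π q.2))
    (t := Finset.univ) (fun _ _ => Finset.mem_coe.2 (Finset.mem_univ _)), ← h₀ (π x) (π z),
    ← h₁ (π x) (π z), ← sum_w01 S₀ S₁ y hd]
  refine Finset.sum_congr rfl fun p _ => ?_
  by_cases hp : p.1 ≠ π x ∧ p.2 ≠ π z ∧ L p.1 p.2 = L (π x) (π z) ∧ L p.1 (π z) = L (π x) p.2
  · rw [← h.cnt x z p.1 p.2 hp.1 hp.2.1 hp.2.2.1 hp.2.2.2, ← Set.ncard_coe_finset]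
    congr 1
    ext q
    simp only [Finset.coe_filter, Finset.mem_filter, Finset.mem_univ, true_and,
      Set.mem_ofPred_eq]
    constructor
    · rintro ⟨⟨-, -, h3, h4⟩, h5⟩
      exact ⟨congrArg Prod.fst h5, congrArg Prod.snd h5, h3, h4⟩
    · rintro ⟨h1, h2, h3, h4⟩
      refine ⟨⟨?_, ?_, h3, h4⟩, Prod.ext h1 h2⟩
      · intro e
        exact hp.1 (by rw [← h1, e])
      · intro e
        exact hp.2.1 (by rw [← h2, e])
  · have hw : w01 S₀ S₁ y (π x) (π z) p.1 p.2 = 0 := by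
      unfold w01
      rw [if_neg, if_neg]
      · exact fun s => hp ⟨hS₀.ne_row s, hS₀.ne_col s, hS₀.diag s, hS₀.anti s⟩
      · exact fun s => hp ⟨hS₁.ne_row s, hS₁.ne_col s, hS₁.diag s, hS₁.anti s⟩
    rw [hw, Finset.card_eq_zero, Finset.filter_eq_empty_iff]
    intro q hq e
    rw [Finset.mem_filter] at hq
    obtain ⟨-, h1, h2, h3, h4⟩ := hq
    obtain ⟨h5, h6⟩ := h.row x z q.1 q.2 h1 h2 h3 h4
    apply hp
    rw [← e]
    refine ⟨h5, h6, ?_, ?_⟩
    · show L (π q.1) (π q.2) = L (π x) (π z)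
      rw [← h.proj, ← h.proj, h3]
    · show L (π q.1) (π z) = L (π x) (π q.2)
      rw [← h.proj, ← h.proj, h4]

end Pool.Agent.H95.HLU
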